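import Pool.Agent.PQP.StmtsC
import Pool.Agent.Helper83_FLX.Ker

/-!
# Squad PQP, row EQC (helper44): potentials of square integrable functions are equicontinuous
-/

set_option autoImplicit false

open scoped InnerProductSpace Topology ContDiff Manifold
open MeasureTheory Filter Set

noncomputable section

namespace Pool.Agent.PQP.H44

open Pool.Agent.Helper42_Paneitz Pool.Agent.Helper82_Vir Pool.Agent.FLX Pool.Agent.PQP

theorem log_one_add_le {t : ℝ} (ht : 0 ≤ t) : Real.log (1 + t) ≤ 4 * t ^ (1 / 4 : ℝ) := by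
  have hw : 0 ≤ t ^ (1 / 4 : ℝ) := Real.rpow_nonneg ht _
  have h4 : (t ^ (1 / 4 : ℝ)) ^ 4 = t := by
    rw [← Real.rpow_natCast, ← Real.rpow_mul ht]
    norm_num
  rw [Real.log_le_iff_le_exp (by linarith)]
  have h1 : 1 + t ^ (1 / 4 : ℝ) ≤ Real.exp (t ^ (1 / 4 : ℝ)) := by
    linarith [Real.add_one_le_exp (t ^ (1 / 4 : ℝ))]
  have h2 : (1 + t ^ (1 / 4 : ℝ)) ^ 4 ≤ Real.exp (t ^ (1 / 4 : ℝ)) ^ 4 :=
    pow_le_pow_left₀ (by linarith) h1 4
  have h5 : Real.exp (t ^ (1 / 4 : ℝ)) ^ 4 = Real.exp (4 * t ^ (1 / 4 : ℝ)) := by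
    rw [← Real.exp_nat_mul]
    norm_num
  rw [h5] at h2
  refine le_trans ?_ h2
  have e : (1 + t ^ (1 / 4 : ℝ)) ^ 4 = 1 + 4 * t ^ (1 / 4 : ℝ) + 6 * (t ^ (1 / 4 : ℝ)) ^ 2
      + 4 * (t ^ (1 / 4 : ℝ)) ^ 3 + (t ^ (1 / 4 : ℝ)) ^ 4 := by ring
  rw [e, h4]
  have h6 : 0 ≤ (t ^ (1 / 4 : ℝ)) ^ 2 := by positivity
  have h7 : 0 ≤ (t ^ (1 / 4 : ℝ)) ^ 3 := by positivity
  linarith

theorem log_sub_aux {a b δ : ℝ} (ha : 0 < a) (hab : a ≤ b) (hδ : b - a ≤ δ) :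
    Real.log b - Real.log a ≤ 4 * (δ ^ (1 / 4 : ℝ) * a ^ (-(1 / 4 : ℝ))) := by
  have hb : 0 < b := lt_of_lt_of_le ha hab
  have hδ0 : 0 ≤ δ := by linarith
  have e1 : Real.log b - Real.log a = Real.log (1 + (b - a) / a) := by
    rw [← Real.log_div hb.ne' ha.ne']
    congr 1
    field_simp
    ring
  have h1 : 0 ≤ (b - a) / a := div_nonneg (by linarith) ha.le
  have h2 : ((b - a) / a) ^ (1 / 4 : ℝ) ≤ (δ / a) ^ (1 / 4 : ℝ) :=
    Real.rpow_le_rpow h1 (div_le_div_of_nonneg_right hδ ha.le) (by norm_num)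
  have e2 : (δ / a) ^ (1 / 4 : ℝ) = δ ^ (1 / 4 : ℝ) * a ^ (-(1 / 4 : ℝ)) := by
    rw [Real.div_rpow hδ0 ha.le, Real.rpow_neg ha.le]
    rfl
  rw [e1]
  have h3 := log_one_add_le h1
  rw [e2] at h2
  linarith

theorem log_sub_log_le {u v δ : ℝ} (hu : 0 < u) (hv : 0 < v) (hδ : |u - v| ≤ δ) :
    |Real.log u - Real.log v| ≤
      4 * (δ ^ (1 / 4 : ℝ) * (u ^ (-(1 / 4 : ℝ)) + v ^ (-(1 / 4 : ℝ)))) := by
  have hδ0 : 0 ≤ δ := (abs_nonneg _).trans hδ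
  have hd : 0 ≤ δ ^ (1 / 4 : ℝ) := Real.rpow_nonneg hδ0 _
  have hru : 0 ≤ u ^ (-(1 / 4 : ℝ)) := Real.rpow_nonneg hu.le _
  have hrv : 0 ≤ v ^ (-(1 / 4 : ℝ)) := Real.rpow_nonneg hv.le _
  have h1 := abs_le.mp hδ
  have hdu := mul_nonneg hd hru
  have hdv := mul_nonneg hd hrv
  rcases le_total u v with h | h
  · have h2 := log_sub_aux hu h (by linarith [h1.1] : v - u ≤ δ)
    have h3 : Real.log u ≤ Real.log v := Real.log_le_log hu h
    rw [abs_sub_comm, abs_of_nonneg (by linarith)]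
    linarith
  · have h2 := log_sub_aux hv h (by linarith [h1.2] : u - v ≤ δ)
    have h3 : Real.log v ≤ Real.log u := Real.log_le_log hv h
    rw [abs_of_nonneg (by linarith)]
    linarith

theorem rpow_quarter_sq {u : ℝ} (hu : 0 ≤ u) :
    (u ^ (-(1 / 4 : ℝ))) ^ 2 = u ^ (-(1 / 2 : ℝ)) := by
  rw [← Real.rpow_natCast, ← Real.rpow_mul hu]
  norm_num

theorem rpow_quarter_sq' {u : ℝ} (hu : 0 ≤ u) :
    (u ^ (1 / 4 : ℝ)) ^ 2 = √u := by
  rw [← Real.rpow_natCast, ← Real.rpow_mul hu, Real.sqrt_eq_rpow]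
  norm_num

theorem log_sub_sq_le {u v δ : ℝ} (hu : 0 < u) (hv : 0 < v) (hδ : |u - v| ≤ δ) :
    (Real.log u - Real.log v) ^ 2 ≤
      32 * √δ * (u ^ (-(1 / 2 : ℝ)) + v ^ (-(1 / 2 : ℝ))) := by
  have hδ0 : 0 ≤ δ := (abs_nonneg _).trans hδ
  have h1 := log_sub_log_le hu hv hδ
  have h2 : (Real.log u - Real.log v) ^ 2 ≤
      (4 * (δ ^ (1 / 4 : ℝ) * (u ^ (-(1 / 4 : ℝ)) + v ^ (-(1 / 4 : ℝ))))) ^ 2 := by
    rw [← sq_abs]
    exact pow_le_pow_left₀ (abs_nonneg _) h1 2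
  refine h2.trans ?_
  have e : (4 * (δ ^ (1 / 4 : ℝ) * (u ^ (-(1 / 4 : ℝ)) + v ^ (-(1 / 4 : ℝ))))) ^ 2
      = 16 * √δ * (u ^ (-(1 / 4 : ℝ)) + v ^ (-(1 / 4 : ℝ))) ^ 2 := by
    rw [mul_pow, mul_pow, rpow_quarter_sq' hδ0]
    ring
  rw [e]
  have h3 : (u ^ (-(1 / 4 : ℝ)) + v ^ (-(1 / 4 : ℝ))) ^ 2
      ≤ 2 * (u ^ (-(1 / 2 : ℝ)) + v ^ (-(1 / 2 : ℝ))) := by
    rw [← rpow_quarter_sq hu.le, ← rpow_quarter_sq hv.le]
    nlinarith [sq_nonneg (u ^ (-(1 / 4 : ℝ)) - v ^ (-(1 / 4 : ℝ)))]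
  have h4 : 0 ≤ 16 * √δ := by positivity
  calc 16 * √δ * (u ^ (-(1 / 4 : ℝ)) + v ^ (-(1 / 4 : ℝ))) ^ 2
      ≤ 16 * √δ * (2 * (u ^ (-(1 / 2 : ℝ)) + v ^ (-(1 / 2 : ℝ)))) :=
        mul_le_mul_of_nonneg_left h3 h4
    _ = _ := by ring

/-- Young's inequality -/
theorem young {u v : S4 → ℝ} (hu : Measurable u) (hv : Measurable v)
    (hu2 : Integrable (fun y => u y ^ 2) sig) (hv2 : Integrable (fun y => v y ^ 2) sig)
    {t : ℝ} (ht : 0 < t) :
    Integrable (fun y => u y * v y) sig ∧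
      |∫ y, u y * v y ∂sig| ≤ t / 2 * ∫ y, u y ^ 2 ∂sig + 1 / (2 * t) * ∫ y, v y ^ 2 ∂sig := by
  have hpt : ∀ y, |u y * v y| ≤ t / 2 * u y ^ 2 + 1 / (2 * t) * v y ^ 2 := by
    intro y
    rw [abs_mul]
    have h1 : 0 ≤ (t * |u y| - |v y|) ^ 2 / (2 * t) := div_nonneg (sq_nonneg _) (by positivity)
    have e : (t * |u y| - |v y|) ^ 2 / (2 * t)
        = t / 2 * |u y| ^ 2 + 1 / (2 * t) * |v y| ^ 2 - |u y| * |v y| := by
      field_simp
      ring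
    rw [e, sq_abs, sq_abs] at h1
    linarith
  have hdom : Integrable (fun y => t / 2 * u y ^ 2 + 1 / (2 * t) * v y ^ 2) sig :=
    (hu2.const_mul _).add (hv2.const_mul _)
  have hint : Integrable (fun y => u y * v y) sig := by
    refine hdom.mono' (hu.mul hv).aestronglyMeasurable (Eventually.of_forall fun y => ?_)
    rw [Real.norm_eq_abs]
    exact hpt y
  refine ⟨hint, ?_⟩
  calc |∫ y, u y * v y ∂sig| ≤ ∫ y, |u y * v y| ∂sig := abs_integral_le_integral_abs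
    _ ≤ ∫ y, (t / 2 * u y ^ 2 + 1 / (2 * t) * v y ^ 2) ∂sig :=
        integral_mono hint.abs hdom hpt
    _ = _ := by
        rw [integral_add (hu2.const_mul _) (hv2.const_mul _), integral_const_mul,
          integral_const_mul]

theorem inner_sub_le (x x' y : S4) :
    |(1 - ⟪(x : E5), (y : E5)⟫_ℝ) - (1 - ⟪(x' : E5), (y : E5)⟫_ℝ)| ≤ dist x x' := by
  have e : (1 - ⟪(x : E5), (y : E5)⟫_ℝ) - (1 - ⟪(x' : E5), (y : E5)⟫_ℝ)
      = -⟪(x : E5) - (x' : E5), (y : E5)⟫_ℝ := by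
    rw [inner_sub_left]
    ring
  rw [e, abs_neg]
  have h := abs_real_inner_le_norm ((x : E5) - (x' : E5)) (y : E5)
  have hy : ‖(y : E5)‖ = 1 := mem_sphere_zero_iff_norm.1 y.2
  rw [hy, mul_one, ← dist_eq_norm] at h
  exact h

theorem one_sub_pos {x y : S4} (h : y ≠ x) : 0 < 1 - ⟪(x : E5), (y : E5)⟫_ℝ := by
  have h0 := Pool.Agent.FLX.H83.one_sub_nonneg x y
  rcases h0.eq_or_lt with h1 | h1
  · exfalso
    apply h
    have hx : ‖(x : E5)‖ = 1 := mem_sphere_zero_iff_norm.1 x.2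
    have hy : ‖(y : E5)‖ = 1 := mem_sphere_zero_iff_norm.1 y.2
    have h2 : ⟪(x : E5), (y : E5)⟫_ℝ = 1 := by linarith
    have h3 := (inner_eq_one_iff_of_norm_eq_one hx hy).mp h2
    exact Subtype.ext h3.symm
  · exact h1

theorem eqc (pow : PowStmt) : Pool.Agent.PQP.EqcStmt := by
  obtain ⟨C0, hC0, hP⟩ := pow (1 / 2) (by norm_num)
  have hbd : ∀ x y, ell x y ^ 2 ≤ 16 * (1 - ⟪(x : E5), (y : E5)⟫_ℝ) ^ (-(1 / 2 : ℝ)) + 1 := by
    intro x y
    have := Pool.Agent.FLX.H83.log_sq_le (Pool.Agent.FLX.H83.one_sub_nonneg x y)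
      (Pool.Agent.FLX.H83.one_sub_le_two x y)
    unfold ell
    rw [neg_sq]
    exact this
  have hone : Integrable (fun _ : S4 => (1 : ℝ)) sig := integrable_cont continuous_const
  have i16 : ∀ x : S4, Integrable (fun y : S4 =>
      16 * (1 - ⟪(x : E5), (y : E5)⟫_ℝ) ^ (-(1 / 2 : ℝ))) sig := fun x => (hP x).1.const_mul _
  have idom : ∀ x : S4, Integrable (fun y : S4 =>
      16 * (1 - ⟪(x : E5), (y : E5)⟫_ℝ) ^ (-(1 / 2 : ℝ)) + 1) sig := fun x => (i16 x).add hone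
  have hme := Pool.Agent.FLX.H83.measurable_ell
  have i2 : ∀ x, Integrable (fun y => ell x y ^ 2) sig := by
    intro x
    refine (idom x).mono' ((hme x).pow_const 2).aestronglyMeasurable
      (Eventually.of_forall fun y => ?_)
    rw [Real.norm_eq_abs, abs_of_nonneg (sq_nonneg _)]
    exact hbd x y
  have hB : ∀ x, ∫ y, ell x y ^ 2 ∂sig ≤ 16 * C0 + msig := by
    intro x
    calc ∫ y, ell x y ^ 2 ∂sig
        ≤ ∫ y : S4, (16 * (1 - ⟪(x : E5), (y : E5)⟫_ℝ) ^ (-(1 / 2 : ℝ)) + 1) ∂sig :=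
          integral_mono (i2 x) (idom x) (hbd x)
      _ = 16 * (∫ y : S4, (1 - ⟪(x : E5), (y : E5)⟫_ℝ) ^ (-(1 / 2 : ℝ)) ∂sig) + msig := by
          rw [integral_add (i16 x) hone, integral_const_mul, integral_const_sig]
          ring
      _ ≤ _ := by linarith [(hP x).2]
  have hm := msig_pos
  intro C hC
  constructor
  · refine ⟨(16 * C0 + msig + C) / 2 + 1, by positivity, ?_⟩
    intro g hg hg2 hgC x
    obtain ⟨h1, h2⟩ := young (hme x) hg (i2 x) hg2 (t := 1) one_pos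
    refine ⟨h1, ?_⟩
    have h3 := hB x
    unfold pot
    linarith
  · intro ε hε
    -- the parameters
    obtain ⟨t, ht⟩ : ∃ t : ℝ, t = (C + 1) / ε := ⟨_, rfl⟩
    have ht0 : 0 < t := by rw [ht]; positivity
    obtain ⟨η, hη⟩ : ∃ η : ℝ, η = ε / t := ⟨_, rfl⟩
    have hη0 : 0 < η := by rw [hη]; positivity
    obtain ⟨θ, hθ⟩ : ∃ θ : ℝ, θ = η / (64 * C0 + 1) := ⟨_, rfl⟩
    have hθ0 : 0 < θ := by rw [hθ]; positivity
    refine ⟨θ ^ 2, by positivity, ?_⟩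
    intro g hg hg2 hgC x x' hd
    have hsq : √(dist x x') ≤ θ := by
      rw [Real.sqrt_le_left hθ0.le]
      exact hd
    -- the difference of the kernels
    have hmd : Measurable (fun y => ell x y - ell x' y) := (hme x).sub (hme x')
    have hae : ∀ᵐ y ∂sig, (ell x y - ell x' y) ^ 2 ≤ 32 * √(dist x x') *
        ((1 - ⟪(x : E5), (y : E5)⟫_ℝ) ^ (-(1 / 2 : ℝ))
          + (1 - ⟪(x' : E5), (y : E5)⟫_ℝ) ^ (-(1 / 2 : ℝ))) := by
      filter_upwards [ae_ne x, ae_ne x'] with y hy hy'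
      have h1 := log_sub_sq_le (one_sub_pos hy) (one_sub_pos hy') (inner_sub_le x x' y)
      unfold ell
      have e : (-Real.log (1 - ⟪(x : E5), (y : E5)⟫_ℝ) - -Real.log (1 - ⟪(x' : E5), (y : E5)⟫_ℝ)) ^ 2
          = (Real.log (1 - ⟪(x : E5), (y : E5)⟫_ℝ) - Real.log (1 - ⟪(x' : E5), (y : E5)⟫_ℝ)) ^ 2 := by
        ring
      rw [e]
      exact h1
    have hdomi : Integrable (fun y : S4 => 32 * √(dist x x') *
        ((1 - ⟪(x : E5), (y : E5)⟫_ℝ) ^ (-(1 / 2 : ℝ))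
          + (1 - ⟪(x' : E5), (y : E5)⟫_ℝ) ^ (-(1 / 2 : ℝ)))) sig :=
      ((hP x).1.add (hP x').1).const_mul _
    have hdi : Integrable (fun y => (ell x y - ell x' y) ^ 2) sig := by
      refine hdomi.mono' (hmd.pow_const 2).aestronglyMeasurable ?_
      filter_upwards [hae] with y hy
      rw [Real.norm_eq_abs, abs_of_nonneg (sq_nonneg _)]
      exact hy
    have hdE : ∫ y, (ell x y - ell x' y) ^ 2 ∂sig ≤ η := by
      calc ∫ y, (ell x y - ell x' y) ^ 2 ∂sig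
          ≤ ∫ y : S4, 32 * √(dist x x') * ((1 - ⟪(x : E5), (y : E5)⟫_ℝ) ^ (-(1 / 2 : ℝ))
              + (1 - ⟪(x' : E5), (y : E5)⟫_ℝ) ^ (-(1 / 2 : ℝ))) ∂sig :=
            integral_mono_ae hdi hdomi hae
        _ = 32 * √(dist x x') * ((∫ y : S4, (1 - ⟪(x : E5), (y : E5)⟫_ℝ) ^ (-(1 / 2 : ℝ)) ∂sig)
              + ∫ y : S4, (1 - ⟪(x' : E5), (y : E5)⟫_ℝ) ^ (-(1 / 2 : ℝ)) ∂sig) := by
            rw [integral_const_mul, integral_add (hP x).1 (hP x').1]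
        _ ≤ 32 * √(dist x x') * (C0 + C0) := by
            apply mul_le_mul_of_nonneg_left _ (by positivity)
            linarith [(hP x).2, (hP x').2]
        _ ≤ 32 * θ * (C0 + C0) := by
            apply mul_le_mul_of_nonneg_right _ (by linarith)
            linarith
        _ ≤ θ * (64 * C0 + 1) := by nlinarith
        _ = η := by
            rw [hθ]
            field_simp
    obtain ⟨i1, -⟩ := young (hme x) hg (i2 x) hg2 (t := 1) one_pos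
    obtain ⟨i1', -⟩ := young (hme x') hg (i2 x') hg2 (t := 1) one_pos
    obtain ⟨-, hy⟩ := young hmd hg hdi hg2 ht0
    have e : pot g x - pot g x' = ∫ y, (ell x y - ell x' y) * g y ∂sig := by
      unfold pot
      rw [← integral_sub i1 i1']
      congr 1
      funext y
      ring
    rw [e]
    refine hy.trans ?_
    have h1 : t / 2 * ∫ y, (ell x y - ell x' y) ^ 2 ∂sig ≤ ε / 2 := by
      calc t / 2 * ∫ y, (ell x y - ell x' y) ^ 2 ∂sig ≤ t / 2 * η :=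
            mul_le_mul_of_nonneg_left hdE (by positivity)
        _ = ε / 2 := by
            rw [hη]
            field_simp
    have h2 : 1 / (2 * t) * ∫ y, g y ^ 2 ∂sig ≤ ε / 2 := by
      calc 1 / (2 * t) * ∫ y, g y ^ 2 ∂sig ≤ 1 / (2 * t) * (C + 1) :=
            mul_le_mul_of_nonneg_left (by linarith) (by positivity)
        _ = ε / 2 := by
            rw [ht]
            field_simp
    linarith

end Pool.Agent.PQP.H44
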