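import Pool.Agent.PQP.StmtsC

/-!
# Squad PQP, row MOV (helper44): contraction for moving caps
-/

set_option autoImplicit false

open scoped InnerProductSpace Topology ContDiff Manifold
open MeasureTheory Filter Set

noncomputable section

namespace Pool.Agent.PQP.H44

open Pool.Agent.Helper42_Paneitz Pool.Agent.Helper82_Vir Pool.Agent.FLX Pool.Agent.PQP

theorem mov (ide : Pool.Agent.PQP.IdeStmt) (gsm : Pool.Agent.PQP.GsmStmt)
    (tau' : Pool.Agent.PQP.TauStmt) : Pool.Agent.PQP.MovStmt := by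
  intro f hsol
  have hsol' := hsol
  obtain ⟨⟨hfc, hfpos, hfint⟩, -⟩ := hsol
  obtain ⟨C, hC, hG⟩ := gsm
  -- the maximum of `f`
  obtain ⟨M, hM0, hM⟩ : ∃ M : ℝ, 0 < M ∧ ∀ y, f y ≤ M := by
    obtain ⟨C1, -, hC1⟩ := exists_bound hfc
    refine ⟨|C1| + 1, by positivity, fun y => ?_⟩
    have h1 := hC1 y
    have h2 := le_abs_self (f y)
    have h3 := le_abs_self C1
    linarith
  have hCM : 0 < 2 * (C * M) := by positivity
  refine ⟨(1 / (2 * (C * M))) ^ 2, by positivity, ?_⟩
  intro e s h hs1 hs2 hh0 hhκ hass x hx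
  obtain ⟨ht1, -, -, -, -, -, -, htc⟩ := tau' e s hs1 hs2
  have h1s : 0 < 1 + s := by linarith
  -- continuity
  have hin : Continuous fun y : S4 => ⟪(e : E5), (y : E5)⟫_ℝ :=
    continuous_const.inner continuous_subtype_val
  have hct : Continuous (tau e s) := by
    have h1 : Continuous fun y : S4 => ((s, y) : ℝ × S4) := continuous_const.prodMk continuous_id
    have h2 : ∀ y : S4, ((s, y) : ℝ × S4) ∈ Ioo (-1 : ℝ) 1 ×ˢ (univ : Set S4) := fun y =>
      Set.mk_mem_prod ⟨hs1, hs2⟩ (mem_univ y)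
    have h3 : Continuous ((fun z : ℝ × S4 => tau e z.1 z.2) ∘ fun y : S4 => ((s, y) : ℝ × S4)) :=
      ContinuousOn.comp_continuous htc h1 h2
    exact h3
  have hcJ : Continuous (capJ e s) := by
    unfold capJ
    refine continuous_const.div ?_ fun y => (ht1 y).1.ne'
    exact continuous_const.sub (continuous_const.mul hin)
  have hcf : Continuous (ftau e s f) := by
    unfold ftau
    exact (hfc.comp hct).mul (hcJ.pow 4)
  have hfp : ∀ y, 0 < ftau e s f y := fun y =>
    mul_pos (hfpos _) (pow_pos (ht1 y).2.1 4)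
  have hcap_closed : IsClosed (hcap e s) := isClosed_le continuous_const hin
  have hcap_comp : IsCompact (hcap e s) := hcap_closed.isCompact
  have hD : Continuous fun y => Real.log (f y) - Real.log (ftau e s f y) :=
    (hfc.log fun y => (hfpos y).ne').sub (hcf.log fun y => (hfp y).ne')
  by_contra hcon
  have hcon' : ftau e s f x < f x := not_le.mp hcon
  obtain ⟨x₀, hx₀, hmax⟩ := hcap_comp.exists_isMaxOn ⟨x, hx⟩ hD.continuousOn
  obtain ⟨D, hDdef⟩ : ∃ D : ℝ, D = Real.log (f x₀) - Real.log (ftau e s f x₀) := ⟨_, rfl⟩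
  have hDx : ∀ y ∈ hcap e s, Real.log (f y) - Real.log (ftau e s f y) ≤ D := by
    intro y hy
    rw [hDdef]
    exact hmax hy
  have hDpos : 0 < D := by
    have h1 := hDx x hx
    have h2 : Real.log (ftau e s f x) < Real.log (f x) := Real.log_lt_log (hfp x) hcon'
    linarith
  -- the set `P`
  set P : Set S4 := {y | y ∈ hcap e s ∧ ftau e s f y < f y} with hP
  have hPm : MeasurableSet P :=
    hcap_closed.measurableSet.inter (isOpen_lt hcf hfc).measurableSet
  have hPs : ∀ y ∈ P, s ≤ ⟪(e : E5), (y : E5)⟫_ℝ ∧ ⟪(e : E5), (y : E5)⟫_ℝ ≤ s + h := by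
    intro y hy
    refine ⟨hy.1, ?_⟩
    by_contra h1
    exact absurd (hass y (not_le.mp h1)) (not_le.mpr hy.2)
  obtain ⟨hGn, hGi, hGb⟩ := hG e s h M f P x₀ hs1 hs2 hh0 hfc (fun y => (hfpos y).le) hM hPm hPs hx₀
  obtain ⟨hIi, hIe⟩ := ide f e s hsol' hs1 hs2 x₀ hx₀
  have hPsub : P ⊆ hcap e s := fun y hy => hy.1
  -- the integral off `P` is nonpositive
  have hsplit : ∫ y in hcap e s, capG e s x₀ y * (f y - ftau e s f y) ∂sig
      ≤ ∫ y in P, capG e s x₀ y * (f y - ftau e s f y) ∂sig := by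
    have e1 : hcap e s = P ∪ (hcap e s \ P) := (union_sdiff_cancel hPsub).symm
    have hI' : IntegrableOn (fun y => capG e s x₀ y * (f y - ftau e s f y)) (hcap e s) sig := hIi
    have e2 : ∫ y in P ∪ (hcap e s \ P), capG e s x₀ y * (f y - ftau e s f y) ∂sig
        = (∫ y in P, capG e s x₀ y * (f y - ftau e s f y) ∂sig)
          + ∫ y in hcap e s \ P, capG e s x₀ y * (f y - ftau e s f y) ∂sig :=
      setIntegral_union disjoint_sdiff_right (hcap_closed.measurableSet.diff hPm)
        (hI'.mono_set hPsub) (hI'.mono_set sdiff_subset)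
    have e3 : ∫ y in hcap e s \ P, capG e s x₀ y * (f y - ftau e s f y) ∂sig ≤ 0 := by
      apply setIntegral_nonpos (hcap_closed.measurableSet.diff hPm)
      intro y hy
      have h1 : f y ≤ ftau e s f y := by
        by_contra h2
        exact hy.2 ⟨hy.1, not_le.mp h2⟩
      exact mul_nonpos_of_nonneg_of_nonpos (hGn y hy.1) (by linarith)
    rw [e1, e2]
    linarith
  have hPle : ∫ y in P, capG e s x₀ y * (f y - ftau e s f y) ∂sig
      ≤ ∫ y in P, D * (capG e s x₀ y * f y) ∂sig := by
    have hI' : IntegrableOn (fun y => capG e s x₀ y * (f y - ftau e s f y)) (hcap e s) sig := hIi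
    have hGi' : IntegrableOn (fun y => capG e s x₀ y * f y) P sig := hGi
    apply setIntegral_mono_on (hI'.mono_set hPsub) (hGi'.const_mul D) hPm
    intro y hy
    have h1 : f y - ftau e s f y ≤ f y * D := by
      have h2 := hDx y hy.1
      have h3 : Real.log (ftau e s f y / f y) ≥ -D := by
        rw [Real.log_div (hfp y).ne' (hfpos y).ne']
        linarith
      have h4 : Real.log (ftau e s f y / f y) ≤ ftau e s f y / f y - 1 :=
        Real.log_le_sub_one_of_pos (div_pos (hfp y) (hfpos y))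
      have h5 : -D ≤ ftau e s f y / f y - 1 := by linarith
      have h6 : f y * (-D) ≤ f y * (ftau e s f y / f y - 1) :=
        mul_le_mul_of_nonneg_left h5 (hfpos y).le
      have h7 : f y * (ftau e s f y / f y - 1) = ftau e s f y - f y := by
        have := (hfpos y).ne'
        field_simp
      linarith
    calc capG e s x₀ y * (f y - ftau e s f y) ≤ capG e s x₀ y * (f y * D) :=
          mul_le_mul_of_nonneg_left h1 (hGn y hy.1)
      _ = D * (capG e s x₀ y * f y) := by ring
  rw [integral_const_mul] at hPle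
  -- the bound for the square root
  have hsq : √(h / (1 + s)) ≤ 1 / (2 * (C * M)) := by
    rw [Real.sqrt_le_left (by positivity), div_le_iff₀ h1s]
    exact hhκ
  have hb : C * M * √(h / (1 + s)) ≤ 1 / 2 := by
    calc C * M * √(h / (1 + s)) ≤ C * M * (1 / (2 * (C * M))) :=
          mul_le_mul_of_nonneg_left hsq (by positivity)
      _ = 1 / 2 := by field_simp
  rw [← hDdef] at hIe
  have h8 : D ≤ D * (4 * ∫ y in P, capG e s x₀ y * f y ∂sig) := by
    linarith [hIe, hsplit, hPle]
  have h9 : D * (4 * ∫ y in P, capG e s x₀ y * f y ∂sig) ≤ D * (1 / 2) :=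
    mul_le_mul_of_nonneg_left (hGb.trans hb) hDpos.le
  linarith

end Pool.Agent.PQP.H44
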